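import Pool.Agent.Y515.CntD.Low
import Mathlib.RingTheory.UniqueFactorizationDomain.Multiplicity
import Mathlib.FieldTheory.Finite.Basic
import Mathlib.LinearAlgebra.Matrix.Adjugate

/-!
Short lattice vectors as combinations of the coordinates; greatest common divisors.
-/

set_option autoImplicit false
set_option linter.unusedSectionVars false

open Polynomial Finset
open Pool.Agent.Y709 Pool.Agent.Y515.Cnt Pool.Agent.Y515.CntG

namespace Pool.Agent.Y515.CntD

variable {k : Type} [Field k] [Fintype k]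

theorem natDegree_det_le {n ξ : ℕ} (M : Matrix (Fin n) (Fin n) k[X])
    (hM : ∀ i j, (M i j).natDegree ≤ ξ) : M.det.natDegree ≤ n * ξ := by
  classical
  rw [Matrix.det_apply]
  apply natDegree_sum_le_of_forall_le
  intro σ _
  refine (natDegree_smul_le _ _).trans ?_
  refine (natDegree_prod_le _ _).trans ?_
  calc ∑ i, (M (σ i) i).natDegree ≤ ∑ _i : Fin n, ξ := Finset.sum_le_sum (fun i _ => hM _ _)
    _ = n * ξ := by rw [Finset.sum_const, Finset.card_univ, Fintype.card_fin, smul_eq_mul]

theorem natDegree_adj_le {n ξ : ℕ} (M : Matrix (Fin n) (Fin n) k[X])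
    (hM : ∀ i j, (M i j).natDegree ≤ ξ) (a b : Fin n) : (M.adjugate a b).natDegree ≤ n * ξ := by
  classical
  rw [Matrix.adjugate_apply]
  apply natDegree_det_le
  intro i j
  rw [Matrix.updateRow_apply]
  split_ifs with h
  · by_cases hj : j = a
    · subst hj
      rw [Pi.single_eq_same, natDegree_one]
      exact Nat.zero_le _
    · rw [Pi.single_eq_of_ne hj, natDegree_zero]
      exact Nat.zero_le _
  · exact hM i j

/-- a lattice vector is a combination of the coordinates, with a minimal denominator -/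
theorem exists_cG {r q ξ : ℕ} (hq0 : 0 < q) (v n : Fin r → k[X]) (A : Fin r → Fin r → k[X])
    (hv : ∀ i, v i = ∑ j, expand k q (A i j) * n j)
    (hinj : ∀ a : Fin r → k[X], (∀ j, ∑ i, a i * A i j = 0) → a = 0)
    (hA : ∀ i j, (A i j).natDegree ≤ ξ) (j : Fin r) :
    ∃ (c : Fin r → k[X]) (G : k[X]), G ≠ 0 ∧
      ∑ i, expand k q (c i) * v i = expand k q G * n j ∧
      (∀ i, (c i).natDegree ≤ r * ξ) ∧ G.natDegree ≤ r * ξ ∧
      ∀ P : k[X], Irreducible P → P ∣ G → ∃ i, ¬ P ∣ c i := by
  classical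
  let Pr : (Fin r → k[X]) → k[X] → Prop := fun c G => G ≠ 0 ∧
      ∑ i, expand k q (c i) * v i = expand k q G * n j ∧
      (∀ i, (c i).natDegree ≤ r * ξ) ∧ G.natDegree ≤ r * ξ
  have hdet : (Matrix.of A).det ≠ 0 := by
    intro h0
    obtain ⟨a, ha0, ha⟩ := Matrix.exists_vecMul_eq_zero_iff.2 h0
    apply ha0
    apply hinj
    intro j'
    exact congrFun ha j'
  have hex : ∃ d : ℕ, ∃ c G, Pr c G ∧ G.natDegree = d := by
    refine ⟨_, fun i => (Matrix.of A).adjugate j i, (Matrix.of A).det, ⟨hdet, ?_, ?_, ?_⟩, rfl⟩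
    · have h1 : ∑ i, expand k q ((Matrix.of A).adjugate j i) * v i =
          ∑ j', expand k q (((Matrix.of A).adjugate * Matrix.of A) j j') * n j' := by
        simp only [hv, Finset.mul_sum, Matrix.mul_apply, map_sum, Finset.sum_mul, map_mul]
        rw [Finset.sum_comm]
        apply Finset.sum_congr rfl
        intro j' _
        apply Finset.sum_congr rfl
        intro i _
        rw [Matrix.of_apply]
        ring
      rw [h1, Matrix.adjugate_mul, Finset.sum_eq_single j]
      · rw [Matrix.smul_apply, Matrix.one_apply_eq, smul_eq_mul, mul_one]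
      · intro b _ hb
        rw [Matrix.smul_apply, Matrix.one_apply_ne (Ne.symm hb), smul_zero, map_zero, zero_mul]
      · intro h; exact absurd (Finset.mem_univ _) h
    · intro i
      exact natDegree_adj_le _ (fun i j => hA i j) _ _
    · exact natDegree_det_le _ (fun i j => hA i j)
  obtain ⟨c, G, ⟨hG0, hcG, hc, hG⟩, hd⟩ := Nat.find_spec hex
  have hmin := fun m => Nat.find_min hex (m := m)
  refine ⟨c, G, hG0, hcG, hc, hG, ?_⟩
  intro P hP hPG
  by_contra hcon
  push Not at hcon
  choose c' hc' using hcon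
  obtain ⟨G', hG'⟩ := hPG
  have hP0 : P ≠ 0 := hP.ne_zero
  have hG'0 : G' ≠ 0 := by
    intro h; apply hG0; rw [hG', h, mul_zero]
  have hPd : 1 ≤ P.natDegree := hP.natDegree_pos
  have hdeg : G.natDegree = P.natDegree + G'.natDegree := by
    rw [hG', natDegree_mul hP0 hG'0]
  apply hmin G'.natDegree (by omega)
  refine ⟨c', G', ⟨hG'0, ?_, ?_, by omega⟩, rfl⟩
  · have hE : expand k q P ≠ 0 := by
      rw [Ne, expand_eq_zero hq0]; exact hP0
    apply mul_left_cancel₀ hE
    rw [Finset.mul_sum, ← mul_assoc, ← map_mul, ← hG', ← hcG]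
    apply Finset.sum_congr rfl
    intro i _
    rw [← mul_assoc, ← map_mul, ← hc' i]
  · intro i
    have h1 := hc i
    by_cases h0 : c' i = 0
    · rw [h0, natDegree_zero]; exact Nat.zero_le _
    · rw [hc' i, natDegree_mul hP0 h0] at h1
      omega

/-- a divisor of a power whose irreducible factors have bounded multiplicity -/
theorem dvd_pow_of {g G : k[X]} {q κ : ℕ} (hg0 : g ≠ 0) (hg : g ∣ G ^ q)
    (h : ∀ P : k[X], Irreducible P → P ∣ G → ¬ P ^ (κ + 1) ∣ g) : g ∣ G ^ κ := by
  classical
  rw [UniqueFactorizationMonoid.dvd_iff_emultiplicity_le hg0]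
  intro p hp
  rw [emultiplicity_le_emultiplicity_iff]
  intro n hn
  rcases Nat.eq_zero_or_pos n with h0 | hn1
  · rw [h0, pow_zero]; exact one_dvd _
  · have h1 : p ∣ G := by
      apply hp.dvd_of_dvd_pow (n := q)
      exact ((dvd_pow_self p (by omega)).trans hn).trans hg
    have h2 : n ≤ κ := by
      by_contra hcon
      exact h p hp.irreducible h1 ((pow_dvd_pow p (by omega)).trans hn)
    exact (pow_dvd_pow p h2).trans (pow_dvd_pow_of_dvd h1 κ)

/-- greatest common divisor of a family -/
theorem exists_gcd {ι : Type} [Fintype ι] (L : ι → k[X]) (hL : ∃ j, L j ≠ 0) :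
    ∃ (η : k[X]) (L' a : ι → k[X]), η ≠ 0 ∧ (∀ j, L j = η * L' j) ∧ ∑ j, a j * L' j = 1 := by
  classical
  let I : Ideal k[X] := Ideal.span (Set.range L)
  let η := Submodule.IsPrincipal.generator I
  have hI : Ideal.span {η} = I := Ideal.span_singleton_generator I
  have h1 : ∀ j, ∃ m, L j = η * m := by
    intro j
    have : L j ∈ I := Ideal.subset_span ⟨j, rfl⟩
    rw [← hI, Ideal.mem_span_singleton] at this
    exact this
  choose L' hL' using h1
  have hη : η ≠ 0 := by
    intro h0
    obtain ⟨j, hj⟩ := hL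
    apply hj
    rw [hL' j, h0, zero_mul]
  have h2 : η ∈ I := Submodule.IsPrincipal.generator_mem I
  obtain ⟨a, ha⟩ := (Ideal.mem_span_range_iff_exists_fun).1 h2
  refine ⟨η, L', a, hη, hL', ?_⟩
  apply mul_left_cancel₀ hη
  rw [mul_one, Finset.mul_sum]
  refine Eq.trans ?_ ha
  apply Finset.sum_congr rfl
  intro j _
  rw [hL' j]
  ring

end Pool.Agent.Y515.CntD
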