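import Mathlib.Tactic

/-!
Arithmetic for the count without a bound on the degree.
-/

set_option autoImplicit false

namespace Pool.Agent.Y515.CntD

/-- `e_j ≤ V` -/
theorem floor_le {q f V N ρ z : ℕ} (hq0 : 0 < q) (hρ : ρ + 2 ≤ q) (hV : 1 ≤ V)
    (hN : N + f = (q - 1) * V + ρ) (hz : z ≤ V - 1 + f) : (N + 1 + z) / q ≤ V := by
  have : (N + 1 + z) / q < V + 1 := by
    rw [Nat.div_lt_iff_lt_mul hq0]
    obtain ⟨t, rfl⟩ : ∃ t, q = t + 1 := ⟨q - 1, by omega⟩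
    rw [Nat.add_sub_cancel] at *
    have e1 : (V + 1) * (t + 1) = t * V + V + t + 1 := by ring
    rw [e1]
    omega
  omega

/-- lower bound of `e_j` -/
theorem floor_ge {q f V N ρ z : ℕ} (hq0 : 0 < q) (hV : 1 ≤ V)
    (hN : N + f = (q - 1) * V + ρ) (hz : z ≤ V - 1 + f) :
    V ≤ (N + 1 + z) / q + (V - 1 + f - z) / q + 1 := by
  set x := V - 1 + f - z with hx
  have hx2 : x < q * (x / q) + q := by
    have := Nat.div_add_mod x q
    have := Nat.mod_lt x hq0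
    omega
  have h2 : V - (x / q + 1) ≤ (N + 1 + z) / q := by
    rw [Nat.le_div_iff_mul_le hq0]
    obtain ⟨t, rfl⟩ : ∃ t, q = t + 1 := ⟨q - 1, by omega⟩
    rw [Nat.add_sub_cancel] at hN
    rw [Nat.sub_mul]
    have e1 : V * (t + 1) = t * V + V := by ring
    have e2 : (x / (t + 1) + 1) * (t + 1) = (t + 1) * (x / (t + 1)) + (t + 1) := by ring
    rw [e1, e2]
    omega
  omega

/-- `e_j ≥ V` when the vector is long -/
theorem floor_ge' {q f V N ρ z : ℕ} (hq0 : 0 < q) (hV : 1 ≤ V)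
    (hN : N + f = (q - 1) * V + ρ) (hx : V - 1 + f ≤ z + ρ) :
    V ≤ (N + 1 + z) / q := by
  rw [Nat.le_div_iff_mul_le hq0]
  obtain ⟨t, rfl⟩ : ∃ t, q = t + 1 := ⟨q - 1, by omega⟩
  rw [Nat.add_sub_cancel] at hN
  have e1 : V * (t + 1) = t * V + V := by ring
  rw [e1]
  omega

/-- `(r + 1) ^ 2` times a quotient by `q` -/
theorem quot_le {r q x : ℕ} (hq : 4 * (r + 1) ^ 2 ≤ q) : 4 * ((r + 1) ^ 2 * (x / q)) ≤ x := by
  have h1 : q * (x / q) ≤ x := Nat.mul_div_le x q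
  have h2 : 4 * (r + 1) ^ 2 * (x / q) ≤ q * (x / q) := Nat.mul_le_mul_right _ hq
  have e : 4 * ((r + 1) ^ 2 * (x / q)) = 4 * (r + 1) ^ 2 * (x / q) := by ring
  rw [e]
  exact h2.trans h1

theorem arith_low {r q f V N ρ t : ℕ} (hq : 4 * (r + 1) ^ 2 ≤ q)
    (hV : 8 * (r + 1) ^ 2 * (f + 1) ≤ V) (hN : N + f = (q - 1) * V + ρ)
    (htr : t < r) :
    V * (t - 1) + ((V - 1 + f) / q + 1) * (r * t) + 2 ≤ t * ((N + 1) / q) ∨ t = 0 := by
  rcases Nat.eq_zero_or_pos t with h0 | ht1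
  · exact Or.inr h0
  left
  have hq0 : 0 < q := by
    have : 0 < (r + 1) ^ 2 := by positivity
    omega
  have hR : 1 ≤ (r + 1) ^ 2 := Nat.one_le_iff_ne_zero.2 (by positivity)
  have hV1 : 8 * (r + 1) ^ 2 + 8 * f ≤ V := by
    refine le_trans ?_ hV
    have e : 8 * (r + 1) ^ 2 * (f + 1) = 8 * (r + 1) ^ 2 + 8 * ((r + 1) ^ 2 * f) := by ring
    rw [e]
    have : 1 * f ≤ (r + 1) ^ 2 * f := Nat.mul_le_mul_right _ hR
    omega
  have hF := floor_ge (z := 0) hq0 (by omega) hN (Nat.zero_le _)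
  rw [Nat.add_zero, Nat.sub_zero] at hF
  have hB := quot_le (x := V - 1 + f) hq
  set F := (N + 1) / q with hFd
  set B := (V - 1 + f) / q with hBd
  obtain ⟨a, rfl⟩ : ∃ a, t = a + 1 := ⟨t - 1, by omega⟩
  rw [Nat.add_sub_cancel]
  have h1 : (a + 1) * V ≤ (a + 1) * (F + B + 1) := Nat.mul_le_mul_left _ hF
  have e1 : (a + 1) * (F + B + 1) = (a + 1) * F + (a + 1) * (B + 1) := by ring
  have e2 : (a + 1) * V = V * a + V := by ring
  have h2 : (B + 1) * ((r + 1) * (a + 1)) ≤ (B + 1) * (r + 1) ^ 2 := by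
    apply Nat.mul_le_mul_left
    rw [pow_two]
    exact Nat.mul_le_mul_left _ (by omega)
  have e3 : (B + 1) * (r + 1) ^ 2 = (r + 1) ^ 2 * B + (r + 1) ^ 2 := by ring
  have e4 : (B + 1) * ((r + 1) * (a + 1)) = (B + 1) * (r * (a + 1)) + (a + 1) * (B + 1) := by ring
  rw [e1, e2] at h1
  rw [e3, e4] at h2
  omega

/-- the hypothesis of the lattice statement -/
theorem arith_cond {r q f V N ρ : ℕ} (hq : 4 * (r + 1) ^ 2 ≤ q)
    (hV : 8 * (r + 1) ^ 2 * (f + 1) ≤ V) (hN : N + f = (q - 1) * V + ρ) :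
    r * V < (r + 1) * ((N + 1) / q) := by
  have hq0 : 0 < q := by
    have : 0 < (r + 1) ^ 2 := by positivity
    omega
  have hR : 1 ≤ (r + 1) ^ 2 := Nat.one_le_iff_ne_zero.2 (by positivity)
  have hV1 : 8 * (r + 1) ^ 2 + 8 * f ≤ V := by
    refine le_trans ?_ hV
    have e : 8 * (r + 1) ^ 2 * (f + 1) = 8 * (r + 1) ^ 2 + 8 * ((r + 1) ^ 2 * f) := by ring
    rw [e]
    have : 1 * f ≤ (r + 1) ^ 2 * f := Nat.mul_le_mul_right _ hR
    omega
  have hF := floor_ge (z := 0) hq0 (by omega) hN (Nat.zero_le _)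
  rw [Nat.add_zero, Nat.sub_zero] at hF
  have hB := quot_le (x := V - 1 + f) hq
  set F := (N + 1) / q with hFd
  set B := (V - 1 + f) / q with hBd
  have h1 : (r + 1) * V ≤ (r + 1) * (F + B + 1) := Nat.mul_le_mul_left _ hF
  have e1 : (r + 1) * (F + B + 1) = (r + 1) * F + (r + 1) * (B + 1) := by ring
  have e2 : (r + 1) * V = r * V + V := by ring
  have h2 : (r + 1) * (B + 1) ≤ (r + 1) ^ 2 * (B + 1) := by
    apply Nat.mul_le_mul_right
    rw [pow_two]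
    exact Nat.le_mul_of_pos_left _ (by omega)
  have e3 : (r + 1) ^ 2 * (B + 1) = (r + 1) ^ 2 * B + (r + 1) ^ 2 := by ring
  rw [e1, e2] at h1
  rw [e3] at h2
  omega

/-- the room for the refined count -/
theorem arith_room {r q f V x γ : ℕ} (hV : 8 * (r + 1) ^ 2 * (f + 1) ≤ V)
    (hx : x < 2 * f + 4 * r + 8) (hγ : γ ≤ r * (x / q)) : q * γ + f ≤ V := by
  have h1 : q * (x / q) ≤ x := Nat.mul_div_le x q
  have h2 : q * γ ≤ r * x := by
    calc q * γ ≤ q * (r * (x / q)) := Nat.mul_le_mul_left _ hγ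
      _ = r * (q * (x / q)) := by ring
      _ ≤ r * x := Nat.mul_le_mul_left _ h1
  have h3 : r * x ≤ r * (2 * f + 4 * r + 8) := Nat.mul_le_mul_left _ hx.le
  have h4 : r * (2 * f + 4 * r + 8) + f ≤ 8 * (r + 1) ^ 2 * (f + 1) := by nlinarith [Nat.zero_le (r * r * f), Nat.zero_le (r * f)]
  omega

/-- exponents of the trivial bound -/
theorem arith_a {r q f x : ℕ} (hq : 4 * (r + 1) ^ 2 ≤ q) (hx : 2 * f + 4 * r + 8 ≤ x) :
    r * (x / q + 1) + r * (r * (x / q) + 1) + (r * (x / q) + 1) + f + (2 + (x + 3) / 4) ≤ x := by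
  have h1 := quot_le (x := x) hq
  generalize x / q = ξ at h1 ⊢
  have e : r * (ξ + 1) + r * (r * ξ + 1) + (r * ξ + 1) + ξ =
      (r + 1) ^ 2 * ξ + 2 * r + 1 := by ring
  omega

/-- exponents of the refined bound, no quotient -/
theorem arith_b0 {r q κ ρ x : ℕ} (hρ : 2 * r + 1 ≤ ρ) (hx : ρ < x) (hxq : x < q) :
    r * (x / q + 1) + r * (0 + 1) + (0 + 1) + κ * 0 + (x - ρ) ≤ x + q * 0 := by
  rw [Nat.div_eq_of_lt hxq]
  omega

/-- exponents of the refined bound -/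
theorem arith_b1 {r q κ x γ d : ℕ} (hq : κ + 3 * r + 4 ≤ q) (hx : q ≤ x) (hd : d ≤ γ + x / q) :
    r * (x / q + 1) + r * (γ + 1) + (d + 1) + κ * d + (d + γ + (x / q + x % q)) ≤ x + q * γ := by
  have hq0 : 0 < q := by omega
  have h1 := Nat.div_add_mod x q
  have h2 : 1 ≤ x / q := (Nat.one_le_div_iff hq0).2 hx
  set ξ := x / q with hξ
  set s := x % q with hs
  have h3 : (κ + 3 * r + 4) * (γ + ξ) ≤ q * (γ + ξ) := Nat.mul_le_mul_right _ hq
  have h4 : κ * d ≤ κ * (γ + ξ) := Nat.mul_le_mul_left _ hd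
  have e1 : (κ + 3 * r + 4) * (γ + ξ) = κ * (γ + ξ) + (2 * r) * (γ + ξ) + r * γ + r * ξ + 4 * γ + 4 * ξ := by
    ring
  have e2 : q * (γ + ξ) = q * γ + q * ξ := by ring
  have h5 : 2 * r * 1 ≤ 2 * r * (γ + ξ) := Nat.mul_le_mul_left _ (by omega)
  have e3 : r * (ξ + 1) + r * (γ + 1) = r * ξ + r * γ + 2 * r := by ring
  rw [e1, e2] at h3
  omega

end Pool.Agent.Y515.CntD
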