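import Pool.Agent.Y515.CntD.Claim
import Pool.Agent.Y515.CntG.Dat

/-!
The data of a vector whose coordinates are independent over the `q`-th powers.
-/

set_option autoImplicit false
set_option linter.unusedSectionVars false

open Polynomial Finset
open Pool.Agent.Y709 Pool.Agent.Y515.Cnt Pool.Agent.Y515.CntG

namespace Pool.Agent.Y515.CntD

variable {k : Type} [Field k] [Fintype k]

/-- the record of a vector: the loss `x` of the shortest lattice vector `n`, and a primitive
combination `G ^ (q) n = ∑ c_i ^ (q) v_i` -/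
structure Rc {r : ℕ} (q N V f ρ : ℕ) (v : Fin r → k[X]) (x γ : ℕ) (c : Fin r → k[X])
    (G n : k[X]) : Prop where
  hn0 : n ≠ 0
  hn : n.natDegree + x = V - 1 + f
  hG0 : G ≠ 0
  hcG : ∑ i, expand k q (c i) * v i = expand k q G * n
  hcγ : ∀ i, (c i).natDegree ≤ γ
  hc : ∃ i, (c i).coeff γ ≠ 0
  hγ : γ ≤ r * (x / q)
  hG : G.natDegree ≤ r * (x / q)
  hGγ : G.natDegree ≤ γ + x / q
  hprim : ∀ P : k[X], Irreducible P → P ∣ G → ∃ i, ¬ P ∣ c i
  hker : (KerF q N v).card * q ^ (r * V) ≤ q ^ (N + 1 + r * (x / q + 1))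
  hker' : x ≤ ρ → (KerF q N v).card * q ^ (r * V) ≤ q ^ (N + 1)

theorem exists_rc {r q f V N ρ : ℕ} (hqk : Fintype.card k = q) (hr : 1 ≤ r)
    (hlat : LatGen k q r) (hq : 4 * (r + 1) ^ 2 ≤ q) (hρ : ρ + 2 ≤ q)
    (hV : 8 * (r + 1) ^ 2 * (f + 1) ≤ V) (hN : N + f = (q - 1) * V + ρ) (v : Fin r → k[X])
    (hv : ∀ i, (v i).natDegree ≤ V - 1 + f)
    (hind : ∀ a : Fin r → k[X], ∑ i, expand k q (a i) * v i = 0 → a = 0) :
    ∃ (x γ : ℕ) (c : Fin r → k[X]) (G n : k[X]), Rc q N V f ρ v x γ c G n := by
  classical
  have hR : 1 ≤ (r + 1) ^ 2 := Nat.one_le_iff_ne_zero.2 (by positivity)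
  have hq0 : 0 < q := by omega
  have hV1 : 1 ≤ V := by
    refine le_trans ?_ hV
    have : 1 * 1 ≤ (8 * (r + 1) ^ 2) * (f + 1) := Nat.mul_le_mul (by omega) (by omega)
    omega
  obtain ⟨n, A, hn0, _, hvA, hA, hcount⟩ := hlat v hind
  have hinj : ∀ a : Fin r → k[X], (∀ j, ∑ i, a i * A i j = 0) → a = 0 := by
    intro a ha
    apply hind
    have : ∑ i, expand k q (a i) * v i = ∑ j, expand k q (∑ i, a i * A i j) * n j := by
      simp only [hvA, Finset.mul_sum, map_sum, Finset.sum_mul, map_mul]
      rw [Finset.sum_comm]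
      apply Finset.sum_congr rfl
      intro j _
      apply Finset.sum_congr rfl
      intro i _
      ring
    rw [this]
    apply Finset.sum_eq_zero
    intro j _
    rw [ha j, map_zero, zero_mul]
  have hl : ∀ j, (n j).natDegree ≤ V - 1 + f := by
    intro j
    obtain ⟨i, hi⟩ : ∃ i, A i j ≠ 0 := by
      by_contra hcon
      push Not at hcon
      have hdet : (Matrix.of A).det = 0 := Matrix.det_eq_zero_of_column_eq_zero j hcon
      obtain ⟨a, ha0, ha⟩ := Matrix.exists_vecMul_eq_zero_iff.2 hdet
      apply ha0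
      apply hinj
      intro j'
      exact congrFun ha j'
    have h1 := (hA i j).resolve_left hi
    have h2 := hv i
    omega
  have hcount' : (KerF q N v).card * q ^ (∑ j, (N + 1 + (n j).natDegree) / q) ≤ q ^ (N + 1) := by
    have h1 := hcount N (by
      have h2 : ∑ j, (N + 1 + (n j).natDegree) / q ≤ ∑ _j : Fin r, V := by
        apply Finset.sum_le_sum
        intro j _
        exact floor_le hq0 hρ hV1 hN (hl j)
      rw [Finset.sum_const, Finset.card_univ, Fintype.card_fin, smul_eq_mul] at h2
      exact lt_of_le_of_lt h2 (arith_cond hq hV hN))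
    rw [natcard_ker, Nat.card_eq_fintype_card, hqk] at h1
    exact h1
  -- the shortest vector
  obtain ⟨j, _, hj⟩ := Finset.exists_min_image Finset.univ (fun j => (n j).natDegree)
    ⟨(⟨0, by omega⟩ : Fin r), Finset.mem_univ _⟩
  set x := V - 1 + f - (n j).natDegree with hx
  have hxj : ∀ i, V - 1 + f - (n i).natDegree ≤ x := by
    intro i
    have := hj i (Finset.mem_univ i)
    omega
  have hAξ : ∀ i j, (A i j).natDegree ≤ x / q := by
    intro a b
    rcases hA a b with h | h
    · rw [h, natDegree_zero]; exact Nat.zero_le _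
    · rw [Nat.le_div_iff_mul_le hq0, mul_comm]
      have h1 := hv a
      have h2 := hxj b
      omega
  obtain ⟨c, G, hG0, hcG, hc, hG, hprim⟩ := exists_cG hq0 v n A hvA hinj hAξ j
  have hnj := hn0 j
  have hE0 : expand k q G ≠ 0 := by
    rw [Ne, expand_eq_zero hq0]; exact hG0
  -- the degree of c
  obtain ⟨m, _, hm⟩ := Finset.exists_max_image Finset.univ (fun i => (c i).natDegree)
    ⟨(⟨0, by omega⟩ : Fin r), Finset.mem_univ _⟩
  have hcm : ∃ i, (c i).coeff (c m).natDegree ≠ 0 := by
    by_cases h0 : c m = 0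
    · by_contra hcon
      push Not at hcon
      apply mul_ne_zero hE0 hnj
      rw [← hcG]
      apply Finset.sum_eq_zero
      intro i _
      have h1 := hm i (Finset.mem_univ i)
      rw [h0, natDegree_zero] at h1 hcon
      have h2 : c i = 0 := by
        rw [eq_C_of_natDegree_le_zero h1, hcon i, map_zero]
      rw [h2, map_zero, zero_mul]
    · exact ⟨m, by rw [coeff_natDegree]; exact leadingCoeff_ne_zero.2 h0⟩
  have hdeg : G.natDegree ≤ (c m).natDegree + x / q := by
    have h1 : (expand k q G * n j).natDegree = G.natDegree * q + (n j).natDegree := by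
      rw [natDegree_mul hE0 hnj, natDegree_expand]
    have h2 : (expand k q G * n j).natDegree ≤ (c m).natDegree * q + (V - 1 + f) := by
      rw [← hcG]
      apply natDegree_sum_le_of_forall_le
      intro i _
      refine natDegree_mul_le.trans (Nat.add_le_add ?_ (hv i))
      rw [natDegree_expand]
      exact Nat.mul_le_mul_right _ (hm i (Finset.mem_univ i))
    rw [h1] at h2
    have h3 := hl j
    by_contra hcon
    push Not at hcon
    have h4 : x < q * (x / q) + q := by
      have := Nat.div_add_mod x q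
      have := Nat.mod_lt x hq0
      omega
    have h5 : ((c m).natDegree + x / q + 1) * q ≤ G.natDegree * q := Nat.mul_le_mul_right _ hcon
    have e : ((c m).natDegree + x / q + 1) * q = (c m).natDegree * q + q * (x / q) + q := by ring
    rw [e] at h5
    omega
  have hlj := hl j
  refine ⟨x, (c m).natDegree, c, G, n j, hnj, by omega, hG0, hcG, fun i => hm i (Finset.mem_univ i),
    hcm, hc m, hG, hdeg, hprim, ?_, ?_⟩
  · have h1 : r * V ≤ ∑ j, (N + 1 + (n j).natDegree) / q + r * (x / q + 1) := by
      have h2 : ∑ _i : Fin r, V ≤ ∑ i, ((N + 1 + (n i).natDegree) / q + (x / q + 1)) := by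
        apply Finset.sum_le_sum
        intro i _
        have h3 := floor_ge hq0 hV1 hN (hl i)
        have h4 : (V - 1 + f - (n i).natDegree) / q ≤ x / q := Nat.div_le_div_right (hxj i)
        omega
      rw [Finset.sum_const, Finset.card_univ, Fintype.card_fin, smul_eq_mul,
        Finset.sum_add_distrib, Finset.sum_const, Finset.card_univ, Fintype.card_fin,
        smul_eq_mul] at h2
      exact h2
    calc (KerF q N v).card * q ^ (r * V) ≤
        (KerF q N v).card * q ^ (∑ j, (N + 1 + (n j).natDegree) / q + r * (x / q + 1)) :=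
          Nat.mul_le_mul_left _ (Nat.pow_le_pow_right hq0 h1)
      _ = ((KerF q N v).card * q ^ (∑ j, (N + 1 + (n j).natDegree) / q)) *
          q ^ (r * (x / q + 1)) := by rw [pow_add]; ring
      _ ≤ q ^ (N + 1) * q ^ (r * (x / q + 1)) := Nat.mul_le_mul_right _ hcount'
      _ = _ := by rw [← pow_add]
  · intro hxρ
    have h1 : r * V ≤ ∑ j, (N + 1 + (n j).natDegree) / q := by
      have h2 : ∑ _i : Fin r, V ≤ ∑ i, ((N + 1 + (n i).natDegree) / q) := by
        apply Finset.sum_le_sum
        intro i _
        apply floor_ge' hq0 hV1 hN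
        have := hxj i
        omega
      rw [Finset.sum_const, Finset.card_univ, Fintype.card_fin, smul_eq_mul] at h2
      exact h2
    exact (Nat.mul_le_mul_left _ (Nat.pow_le_pow_right hq0 h1)).trans hcount'

/-- number of vectors with a prescribed combination, trivial bound -/
theorem card_comb' {r q V m : ℕ} (hqk : Fintype.card k = q)
    {Φ : Matrix (Fin r) (Fin r) k[X]} (hdet : Φ.det ≠ 0) (c : Fin r → k[X]) (hc : ∃ i, c i ≠ 0)
    (G : k[X]) (W : Finset (Fin r → k[X])) (hW : ∀ w ∈ W, (∀ b, w b ∈ PF k V) ∧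
      ∃ n ∈ PF k m, ∑ i, expand k q (c i) * mv Φ w i = expand k q G * n) :
    W.card ≤ q ^ (V * (r - 1) + m) := by
  classical
  have hq0 : 0 < q := by rw [← hqk]; exact Fintype.card_pos
  obtain ⟨j0, hj0⟩ : ∃ j0, ∑ i, expand k q (c i) * Φ i j0 ≠ 0 := by
    by_contra hcon
    push Not at hcon
    obtain ⟨i, hi⟩ := hc
    apply hi
    have h1 : (fun i => expand k q (c i)) = (0 : Fin r → k[X]) := by
      apply Matrix.eq_zero_of_vecMul_eq_zero hdet
      ext1 j
      exact hcon j
    have := congrFun h1 i
    simp only [Pi.zero_apply] at this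
    exact (expand_eq_zero hq0).1 this
  choose! n hn1 hn2 using fun w (hw : w ∈ W) => (hW w hw).2
  have hswap : ∀ w : Fin r → k[X], ∑ i, expand k q (c i) * mv Φ w i =
      (∑ i, expand k q (c i) * Φ i j0) * w j0 +
        ∑ j ∈ Finset.univ.erase j0, (∑ i, expand k q (c i) * Φ i j) * w j := by
    intro w
    rw [Finset.add_sum_erase Finset.univ (fun j => (∑ i, expand k q (c i) * Φ i j) * w j)
      (Finset.mem_univ j0), swap_sum]
  have h1 : W.card ≤ (Fintype.piFinset (fun j : Fin r => if j = j0 then PF k m else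
      PF k V)).card := by
    apply Finset.card_le_card_of_injOn
      (fun w => Function.update w j0 (n w))
    · intro w hw
      rw [Finset.mem_coe, Fintype.mem_piFinset]
      intro j
      beta_reduce
      by_cases hj : j = j0
      · subst hj
        rw [if_pos rfl, Function.update_self]
        exact hn1 w hw
      · rw [if_neg hj, Function.update_of_ne hj]
        exact (hW w hw).1 j
    · intro w hw z hz hwz
      simp only at hwz
      have hne : ∀ j, j ≠ j0 → w j = z j := by
        intro j hj
        have := congrFun hwz j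
        rw [Function.update_of_ne hj, Function.update_of_ne hj] at this
        exact this
      have h2 := congrFun hwz j0
      rw [Function.update_self, Function.update_self] at h2
      have h5 : ∑ i, expand k q (c i) * mv Φ w i = ∑ i, expand k q (c i) * mv Φ z i := by
        rw [hn2 w hw, hn2 z hz, h2]
      rw [hswap w, hswap z] at h5
      have h3 : ∑ j ∈ Finset.univ.erase j0, (∑ i, expand k q (c i) * Φ i j) * w j =
          ∑ j ∈ Finset.univ.erase j0, (∑ i, expand k q (c i) * Φ i j) * z j := by
        apply Finset.sum_congr rfl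
        intro j hj
        rw [hne j (Finset.ne_of_mem_erase hj)]
      rw [h3] at h5
      have h4 := mul_left_cancel₀ hj0 (add_right_cancel h5)
      ext1 j
      by_cases hj : j = j0
      · rw [hj]; exact h4
      · exact hne j hj
  rw [Fintype.card_piFinset] at h1
  refine h1.trans (le_of_eq ?_)
  rw [← Finset.prod_erase_mul Finset.univ _ (Finset.mem_univ j0), if_pos rfl, card_PF, hqk,
    Finset.prod_congr rfl (g := fun _ => q ^ V), Finset.prod_const,
    Finset.card_erase_of_mem (Finset.mem_univ _), Finset.card_univ, Fintype.card_fin, ← pow_mul,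
    ← pow_add]
  intro j hj
  rw [if_neg (Finset.ne_of_mem_erase hj), card_PF, hqk]

end Pool.Agent.Y515.CntD
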