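import Pool.Agent.Y515.CntD.Rec
import Pool.Agent.Y515.CntG.Irred

/-!
The sum over the vectors with independent coordinates.
-/

set_option autoImplicit false
set_option linter.unusedSectionVars false

open Polynomial Finset
open Pool.Agent.Y709 Pool.Agent.Y515.Cnt Pool.Agent.Y515.CntG

namespace Pool.Agent.Y515.CntD

variable {k : Type} [Field k] [Fintype k]

theorem sum_geo98 (Q : ℝ) (hQ : 16 ≤ Q) (n : ℕ) : ∑ x ∈ Finset.range n, 1 / Q ^ x ≤ 9 / 8 := by
  have h1 : ∀ x : ℕ, 1 / Q ^ x ≤ (1 / 16 : ℝ) ^ x := by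
    intro x
    rw [one_div_pow]
    apply one_div_le_one_div_of_le (by positivity)
    exact pow_le_pow_left₀ (by norm_num) hQ x
  calc _ ≤ ∑ x ∈ Finset.range n, (1 / 16 : ℝ) ^ x := Finset.sum_le_sum (fun x _ => h1 x)
    _ ≤ 9 / 8 := by
        rw [geom_sum_eq (by norm_num)]
        have : (0 : ℝ) ≤ (1 / 16) ^ n := by positivity
        rw [div_le_iff_of_neg (by norm_num)]
        linarith

theorem sum_floor98 (Q : ℝ) (hQ : 16 ≤ Q) (q n : ℕ) (hq0 : 0 < q) :
    ∑ x ∈ Finset.Ico q n, 1 / Q ^ (x / q + x % q) ≤ 81 / 64 / Q := by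
  classical
  have hQ0 : 0 < Q := by linarith
  have hinj : Set.InjOn (fun x : ℕ => (x / q - 1, x % q)) (Finset.Ico q n : Set ℕ) := by
    intro x hx y hy h
    rw [Finset.mem_coe, Finset.mem_Ico] at hx hy
    simp only [Prod.mk.injEq] at h
    have h1 : 1 ≤ x / q := (Nat.one_le_div_iff hq0).2 hx.1
    have h2 : 1 ≤ y / q := (Nat.one_le_div_iff hq0).2 hy.1
    rw [← Nat.div_add_mod x q, ← Nat.div_add_mod y q, h.2, show x / q = y / q by omega]
  calc ∑ x ∈ Finset.Ico q n, 1 / Q ^ (x / q + x % q) =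
      ∑ p ∈ (Finset.Ico q n).image (fun x => (x / q - 1, x % q)),
        (1 / Q) * ((1 / Q ^ p.1) * (1 / Q ^ p.2)) := by
        rw [Finset.sum_image hinj]
        apply Finset.sum_congr rfl
        intro x hx
        rw [Finset.mem_Ico] at hx
        have h1 : 1 ≤ x / q := (Nat.one_le_div_iff hq0).2 hx.1
        obtain ⟨a, ha⟩ : ∃ a, x / q = a + 1 := ⟨x / q - 1, by omega⟩
        simp only
        rw [ha, Nat.add_sub_cancel, pow_add, pow_add]
        field_simp
    _ ≤ ∑ p ∈ (Finset.range n) ×ˢ (Finset.range q),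
        (1 / Q) * ((1 / Q ^ p.1) * (1 / Q ^ p.2)) := by
        apply Finset.sum_le_sum_of_subset_of_nonneg
        · intro p hp
          rw [Finset.mem_image] at hp
          obtain ⟨x, hx, rfl⟩ := hp
          rw [Finset.mem_Ico] at hx
          rw [Finset.mem_product, Finset.mem_range, Finset.mem_range]
          have := Nat.div_le_self x q
          exact ⟨by simp only; omega, Nat.mod_lt x hq0⟩
        · intro p _ _
          positivity
    _ = (1 / Q) * ((∑ a ∈ Finset.range n, 1 / Q ^ a) * (∑ a ∈ Finset.range q, 1 / Q ^ a)) := by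
        rw [← Finset.mul_sum, Finset.sum_product, Finset.sum_mul_sum]
    _ ≤ (1 / Q) * ((9 / 8) * (9 / 8)) := by
        apply mul_le_mul_of_nonneg_left _ (by positivity)
        apply mul_le_mul (sum_geo98 Q hQ n) (sum_geo98 Q hQ q) _ (by norm_num)
        exact Finset.sum_nonneg (fun x _ => by positivity)
    _ = 81 / 64 / Q := by ring

theorem sum_quarter (Q : ℝ) (hQ : 16 ≤ Q) (s : Finset ℕ) (n : ℕ) (hs : s ⊆ Finset.range n) :
    ∑ x ∈ s, 1 / Q ^ ((x + 3) / 4) ≤ 2 := by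
  classical
  calc ∑ x ∈ s, 1 / Q ^ ((x + 3) / 4) ≤ ∑ x ∈ Finset.range n, 1 / Q ^ ((x + 3) / 4) := by
        apply Finset.sum_le_sum_of_subset_of_nonneg hs
        intro x _ _
        have : 0 < Q := by linarith
        positivity
    _ ≤ ∑ x ∈ Finset.range n, 1 / (2 : ℝ) ^ x := by
        apply Finset.sum_le_sum
        intro x _
        apply one_div_le_one_div_of_le (by positivity)
        calc (2 : ℝ) ^ x ≤ 2 ^ (4 * ((x + 3) / 4)) := by
              apply pow_le_pow_right₀ (by norm_num)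
              omega
          _ = 16 ^ ((x + 3) / 4) := by rw [pow_mul]; norm_num
          _ ≤ Q ^ ((x + 3) / 4) := pow_le_pow_left₀ (by norm_num) hQ _
    _ ≤ 2 := Pool.Agent.Y515.CntG.sum_geo 2 le_rfl n

/-- a class of vectors -/
theorem class_bound {α : Type*} {q m a b c e M : ℕ} (hq0 : 0 < q) (T : Finset α) (K : α → ℕ)
    (hT : T.card * q ^ m ≤ q ^ a) (hK : ∀ w ∈ T, K w * q ^ b ≤ q ^ c)
    (h : a + c + e ≤ m + b + M) : ∑ w ∈ T, (K w : ℝ) ≤ (q : ℝ) ^ M / (q : ℝ) ^ e := by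
  have hqR : (1 : ℝ) ≤ (q : ℝ) := by exact_mod_cast hq0
  have h1 : (∑ w ∈ T, (K w : ℝ)) * (q : ℝ) ^ b ≤ (T.card : ℝ) * (q : ℝ) ^ c := by
    rw [Finset.sum_mul, ← nsmul_eq_mul, ← Finset.sum_const]
    apply Finset.sum_le_sum
    intro w hw
    exact_mod_cast hK w hw
  have h2 : (T.card : ℝ) * (q : ℝ) ^ m ≤ (q : ℝ) ^ a := by exact_mod_cast hT
  rw [le_div_iff₀ (by positivity)]
  have h3 : (∑ w ∈ T, (K w : ℝ)) * (q : ℝ) ^ e * (q : ℝ) ^ (m + b) ≤
      (q : ℝ) ^ M * (q : ℝ) ^ (m + b) := by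
    calc (∑ w ∈ T, (K w : ℝ)) * (q : ℝ) ^ e * (q : ℝ) ^ (m + b) =
        ((∑ w ∈ T, (K w : ℝ)) * (q : ℝ) ^ b) * ((q : ℝ) ^ e * (q : ℝ) ^ m) := by
          rw [pow_add]; ring
      _ ≤ ((T.card : ℝ) * (q : ℝ) ^ c) * ((q : ℝ) ^ e * (q : ℝ) ^ m) :=
          mul_le_mul_of_nonneg_right h1 (by positivity)
      _ = ((T.card : ℝ) * (q : ℝ) ^ m) * ((q : ℝ) ^ c * (q : ℝ) ^ e) := by ring
      _ ≤ (q : ℝ) ^ a * ((q : ℝ) ^ c * (q : ℝ) ^ e) :=
          mul_le_mul_of_nonneg_right h2 (by positivity)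
      _ ≤ (q : ℝ) ^ M * (q : ℝ) ^ (m + b) := by
          rw [← pow_add, ← pow_add, ← pow_add]
          apply pow_le_pow_right₀ hqR
          omega
  exact le_of_mul_le_mul_right h3 (by positivity)

theorem card_fib {α β : Type*} [DecidableEq β] (T : Finset α) (g : α → β) (S : Finset β)
    (hg : ∀ a ∈ T, g a ∈ S) (m B : ℕ) (h : ∀ b ∈ S, (T.filter (fun a => g a = b)).card * m ≤ B) :
    T.card * m ≤ S.card * B := by
  rw [Finset.card_eq_sum_card_fiberwise hg, Finset.sum_mul]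
  calc _ ≤ ∑ _b ∈ S, B := Finset.sum_le_sum h
    _ = S.card * B := by rw [Finset.sum_const, smul_eq_mul]

section

variable {r q f V N ρ κ : ℕ} {Φ Ψ : Matrix (Fin r) (Fin r) k[X]} {δ : k[X]}

theorem class_card_a (hqk : Fintype.card k = q) (hdet : Φ.det ≠ 0) (x : ℕ) (hV1 : 1 ≤ V)
    (T : Finset (Fin r → k[X])) (γ : (Fin r → k[X]) → ℕ) (c : (Fin r → k[X]) → Fin r → k[X])
    (G n : (Fin r → k[X]) → k[X])
    (hT : ∀ w ∈ T, (∀ b, w b ∈ PF k V) ∧ Rc q N V f ρ (mv Φ w) x (γ w) (c w) (G w) (n w)) :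
    T.card * q ^ x ≤ q ^ (r * (r * (x / q) + 1) + (r * (x / q) + 1) + (V * (r - 1) + V + f)) := by
  classical
  have hq0 : 0 < q := by rw [← hqk]; exact Fintype.card_pos
  rcases T.eq_empty_or_nonempty with h0 | ⟨w0, hw0⟩
  · rw [h0, Finset.card_empty, zero_mul]; exact Nat.zero_le _
  have hx : x ≤ V - 1 + f := by
    have := (hT w0 hw0).2.hn
    omega
  have h1 := card_fib T (fun w => (c w, G w))
    ((Fintype.piFinset (fun _ : Fin r => PF k (r * (x / q) + 1))) ×ˢ PF k (r * (x / q) + 1))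
    (by
      intro w hw
      have hw2 := (hT w hw).2
      rw [Finset.mem_product, Fintype.mem_piFinset]
      refine ⟨?_, ?_⟩
      · intro i
        rw [mem_PF_succ]
        exact (hw2.hcγ i).trans hw2.hγ
      · rw [mem_PF_succ]
        exact hw2.hG) (q ^ x) (q ^ (V * (r - 1) + V + f)) (by
      rintro ⟨c0, G0⟩ _
      rcases (T.filter (fun a => (c a, G a) = (c0, G0))).eq_empty_or_nonempty with h0 | ⟨w1, hw1⟩
      · rw [h0, Finset.card_empty, zero_mul]; exact Nat.zero_le _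
      rw [Finset.mem_filter, Prod.mk.injEq] at hw1
      have hc0 : ∃ i, c0 i ≠ 0 := by
        obtain ⟨i, hi⟩ := (hT w1 hw1.1).2.hc
        refine ⟨i, ?_⟩
        rw [← hw1.2.1]
        intro h0
        rw [h0, coeff_zero] at hi
        exact hi rfl
      have h2 := card_comb' (m := V - 1 + f - x + 1) (V := V) hqk hdet c0 hc0 G0
        (T.filter (fun a => (c a, G a) = (c0, G0))) (by
          intro w hw
          rw [Finset.mem_filter, Prod.mk.injEq] at hw
          obtain ⟨h3, h4, h5⟩ := hw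
          obtain ⟨h6, h7⟩ := hT w h3
          refine ⟨h6, n w, ?_, ?_⟩
          · rw [mem_PF_succ]
            have := h7.hn
            omega
          · rw [← h4, ← h5]
            exact h7.hcG)
      refine (Nat.mul_le_mul_right _ h2).trans ?_
      rw [← pow_add]
      apply Nat.pow_le_pow_right hq0
      omega)
  refine h1.trans (le_of_eq ?_)
  rw [Finset.card_product, Fintype.card_piFinset, Finset.prod_const, card_PF, hqk,
    Finset.card_univ, Fintype.card_fin, ← pow_mul, ← pow_add, ← pow_add]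
  congr 1
  ring

theorem class_card_b (hqk : Fintype.card k = q)
    (hf : ∀ i j, (Φ i j).natDegree ≤ f) (hlead : (Matrix.of fun i j => (Φ i j).coeff f).det ≠ 0)
    (hΨ : Φ * Ψ = δ • (1 : Matrix (Fin r) (Fin r) k[X]))
    (hκ : ∀ P : k[X], Irreducible P → ¬ P ^ (κ + 1) ∣ δ)
    (x γ d : ℕ) (hV1 : 1 ≤ V) (hroom : q * γ + f ≤ V)
    (T : Finset (Fin r → k[X])) (c : (Fin r → k[X]) → Fin r → k[X])
    (G n : (Fin r → k[X]) → k[X])
    (hT : ∀ w ∈ T, (∀ b, w b ∈ PF k V) ∧ Rc q N V f ρ (mv Φ w) x γ (c w) (G w) (n w) ∧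
      (G w).natDegree = d) :
    T.card * q ^ (q * γ + x) ≤ q ^ (r * (γ + 1) + (d + 1) + (V * (r - 1) + V + κ * d)) := by
  classical
  have hq0 : 0 < q := by rw [← hqk]; exact Fintype.card_pos
  rcases T.eq_empty_or_nonempty with h0 | ⟨w0, hw0⟩
  · rw [h0, Finset.card_empty, zero_mul]; exact Nat.zero_le _
  have hx : x ≤ V - 1 + f := by
    have := (hT w0 hw0).2.1.hn
    omega
  have h1 := card_fib T (fun w => (c w, G w))
    ((Fintype.piFinset (fun _ : Fin r => PF k (γ + 1))) ×ˢ PF k (d + 1))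
    (by
      intro w hw
      have hw2 := (hT w hw).2
      rw [Finset.mem_product, Fintype.mem_piFinset]
      refine ⟨?_, ?_⟩
      · intro i
        rw [mem_PF_succ]
        exact (hw2.1.hcγ i)
      · rw [mem_PF_succ]
        exact hw2.2.le) (q ^ (q * γ + x)) (q ^ (V * (r - 1) + V + κ * d)) (by
      rintro ⟨c0, G0⟩ _
      rcases (T.filter (fun a => (c a, G a) = (c0, G0))).eq_empty_or_nonempty with h0 | ⟨w1, hw1⟩
      · rw [h0, Finset.card_empty, zero_mul]; exact Nat.zero_le _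
      rw [Finset.mem_filter, Prod.mk.injEq] at hw1
      obtain ⟨hw11, hw12, hw13⟩ := hw1
      obtain ⟨_, hw1r, hw1d⟩ := hT w1 hw11
      rw [hw12, hw13] at hw1r
      rw [hw13] at hw1d
      have h2 := card_refined (z := V - 1 + f - x) (V := V) hqk Φ Ψ δ hf hlead hΨ hκ c0
        hw1r.hcγ hw1r.hc G0 hw1r.hG0 hw1r.hprim hroom
        (T.filter (fun a => (c a, G a) = (c0, G0))) (by
          intro w hw
          rw [Finset.mem_filter, Prod.mk.injEq] at hw
          obtain ⟨h3, h4, h5⟩ := hw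
          obtain ⟨h6, h7, _⟩ := hT w h3
          refine ⟨h6, n w, h7.hn0, ?_, ?_⟩
          · have := h7.hn
            omega
          · rw [← h4, ← h5]
            exact h7.hcG)
      rw [hw1d] at h2
      apply Nat.le_of_mul_le_mul_right (c := q ^ f) _ (by positivity)
      calc (T.filter (fun a => (c a, G a) = (c0, G0))).card * q ^ (q * γ + x) * q ^ f =
          ((T.filter (fun a => (c a, G a) = (c0, G0))).card * q ^ (q * γ + f)) * q ^ x := by
            rw [pow_add, pow_add]; ring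
        _ ≤ q ^ (V * (r - 1) + (V - 1 + f - x + 1) + κ * d) * q ^ x := Nat.mul_le_mul_right _ h2
        _ ≤ q ^ (V * (r - 1) + V + κ * d) * q ^ f := by
            rw [← pow_add, ← pow_add]
            apply Nat.pow_le_pow_right hq0
            omega)
  refine h1.trans (le_of_eq ?_)
  rw [Finset.card_product, Fintype.card_piFinset, Finset.prod_const, card_PF, card_PF, hqk,
    Finset.card_univ, Fintype.card_fin, ← pow_mul, ← pow_add, ← pow_add]
  congr 1
  ring

end

end Pool.Agent.Y515.CntD
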